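import Pool.Agent.Lib.MP_6bc78b_nt.MS.QZ.Iface

/-! Project MS, Part QZ, module TAY: the truncated exponential. -/

set_option autoImplicit false

open Complex Finset

namespace Pool.Agent.Lib.MP_6bc78b_nt.MS.QZ.H93

/-- The remainder of the exponential series. -/
theorem rem_le (R : ℝ) (K : ℕ) (z : ℂ) (hR : 1 ≤ R) (hz : ‖z‖ ≤ R) (hK : 10 * R ≤ K) :
    ‖Complex.exp z - te K z‖ ≤ 1 / 5 * Real.exp (-(K : ℝ)) := by
  have hR0 : 0 < R := by linarith
  have h1 : ‖Complex.exp z - te K z‖ ≤ ‖z‖ ^ (K + 1) / ((K + 1).factorial : ℝ) * 2 := by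
    have hx : ‖z‖ / ((K + 1).succ : ℕ) ≤ 1 / 2 := by
      rw [div_le_iff₀ (by positivity)]
      push_cast
      linarith
    exact Complex.exp_bound' hx
  have h2 : (10 * R) ^ (K + 1) / ((K + 1).factorial : ℝ) ≤ Real.exp (10 * R) :=
    Real.pow_div_factorial_le_exp (10 * R) (by positivity) (K + 1)
  have h3 : ‖z‖ ^ (K + 1) / ((K + 1).factorial : ℝ) ≤ R ^ (K + 1) / ((K + 1).factorial : ℝ) := by
    gcongr
  have h4 : R ^ (K + 1) / ((K + 1).factorial : ℝ) =
      (1 / 10) ^ (K + 1) * ((10 * R) ^ (K + 1) / ((K + 1).factorial : ℝ)) := by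
    rw [mul_pow, ← mul_div_assoc, ← mul_assoc, ← mul_pow]
    norm_num
  have h5 : (1 / 10 : ℝ) ^ (K + 1) * Real.exp (10 * R) ≤ 1 / 10 * Real.exp (-(K : ℝ)) := by
    have he : Real.exp (10 * R) ≤ Real.exp K := Real.exp_le_exp.mpr hK
    have he2 : Real.exp 2 ≤ 10 := by
      have h := Real.exp_one_lt_d9
      have h0 := Real.exp_pos 1
      have : Real.exp 2 = Real.exp 1 * Real.exp 1 := by
        rw [← Real.exp_add]; norm_num
      rw [this]
      nlinarith
    have hkey : (1 / 10 : ℝ) ^ K ≤ Real.exp (-(2 * (K : ℝ))) := by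
      have : Real.exp (-(2 * (K : ℝ))) = (Real.exp (-2)) ^ K := by
        rw [← Real.exp_nat_mul]; ring_nf
      rw [this]
      apply pow_le_pow_left₀ (by norm_num)
      rw [Real.exp_neg, one_div]
      exact inv_anti₀ (Real.exp_pos 2) he2
    calc (1 / 10 : ℝ) ^ (K + 1) * Real.exp (10 * R)
        ≤ (1 / 10 : ℝ) ^ (K + 1) * Real.exp K := by gcongr
      _ = 1 / 10 * ((1 / 10 : ℝ) ^ K * Real.exp K) := by ring
      _ ≤ 1 / 10 * (Real.exp (-(2 * (K : ℝ))) * Real.exp K) := by gcongr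
      _ = 1 / 10 * Real.exp (-(K : ℝ)) := by
        rw [← Real.exp_add]; ring_nf
  have h6 : R ^ (K + 1) / ((K + 1).factorial : ℝ) ≤ 1 / 10 * Real.exp (-(K : ℝ)) := by
    rw [h4]
    refine le_trans ?_ h5
    gcongr
  linarith

/-- TAY. -/
theorem tay : TayStatement := by
  intro R α K w hR hα hw hK
  have hR0 : 0 < R := by linarith
  have hnz : ‖(α : ℂ) * w‖ ≤ R := by
    rw [norm_mul, Complex.norm_real, Real.norm_eq_abs]
    calc |α| * ‖w‖ ≤ 1 * R := mul_le_mul hα hw (norm_nonneg _) zero_le_one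
      _ = R := one_mul R
  have hrem := rem_le R K ((α : ℂ) * w) hR hnz hK
  have hexp : ‖Complex.exp ((α : ℂ) * w)‖ = Real.exp (α * w.re) := by
    rw [Complex.norm_exp]; simp
  have hlow : -R ≤ α * w.re := by
    have h := Complex.abs_re_le_norm ((α : ℂ) * w)
    have h' : ((α : ℂ) * w).re = α * w.re := by simp
    rw [h'] at h
    have := neg_abs_le (α * w.re)
    linarith
  -- `x = exp (-R) / 5`
  have hx : 1 / 5 * Real.exp (-(K : ℝ)) ≤ 1 / 5 * Real.exp (-R) * Real.exp (α * w.re) := by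
    rw [mul_assoc, ← Real.exp_add]
    have : -(K : ℝ) ≤ -R + α * w.re := by linarith
    gcongr
  have hte : (1 - 1 / 5 * Real.exp (-R)) * Real.exp (α * w.re) ≤ ‖te K ((α : ℂ) * w)‖ := by
    have h := norm_sub_norm_le (Complex.exp ((α : ℂ) * w)) (te K ((α : ℂ) * w))
    rw [hexp] at h
    linarith
  have hE1 : Real.exp (-R) ≤ 1 := Real.exp_le_one_iff.mpr (by linarith)
  have hE0 : 0 < Real.exp (-R) := Real.exp_pos _
  have h1x : Real.exp (-(2 * Real.exp (-R))) ≤ 1 - 1 / 5 * Real.exp (-R) := by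
    set y := Real.exp (-R) with hy
    have h := Real.add_one_le_exp (2 * y)
    rw [Real.exp_neg]
    have h2 : (Real.exp (2 * y))⁻¹ ≤ (2 * y + 1)⁻¹ := inv_anti₀ (by positivity) h
    refine le_trans h2 ?_
    rw [inv_le_iff_one_le_mul₀ (by positivity)]
    nlinarith
  have hfin : Real.exp (-(2 * Real.exp (-R))) * Real.exp (α * w.re) ≤
      ‖te K ((α : ℂ) * w)‖ :=
    le_trans (mul_le_mul_of_nonneg_right h1x (Real.exp_pos _).le) hte
  have hsq : (Real.exp (-(2 * Real.exp (-R))) * Real.exp (α * w.re)) ^ 2 ≤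
      ‖te K ((α : ℂ) * w)‖ ^ 2 := pow_le_pow_left₀ (by positivity) hfin 2
  calc Real.exp (2 * α * w.re)
      = Real.exp (4 * Real.exp (-R)) *
        (Real.exp (-(2 * Real.exp (-R))) * Real.exp (α * w.re)) ^ 2 := by
        rw [mul_pow, ← Real.exp_nat_mul, ← Real.exp_nat_mul, ← Real.exp_add, ← Real.exp_add]
        congr 1
        push_cast
        ring
    _ ≤ Real.exp (4 * Real.exp (-R)) * ‖te K ((α : ℂ) * w)‖ ^ 2 := by gcongr

end Pool.Agent.Lib.MP_6bc78b_nt.MS.QZ.H93
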